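import Pool.Agent.Helper79.TL.Core

/-! TL-A5 for MP_5c3aa2_al (captain helper79): the good eigenvector in characteristic 3. -/

set_option autoImplicit false
set_option linter.unusedSectionVars false

open Module

namespace Pool.Agent.Helper79.TL.A5

variable {F : Type} [Field F] [CharP F 3] {M : Type} [AddCommGroup M] [Module F M]
  {t s : Module.End F M} {Y : Fin 3 → Module.End F M}

/-- (minus) the sum of `ξ^{-k} t^k`: the projection onto the `ξ`-eigenspace of `t` -/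
def Pr (t : Module.End F M) (ξ : F) : Module.End F M :=
  - ∑ k ∈ Finset.range 5, ξ ^ (4 * k) • t ^ k

lemma Pr_apply (t : Module.End F M) (ξ : F) (x : M) :
    Pr t ξ x = - (x + ξ ^ 4 • t x + ξ ^ 8 • t (t x) + ξ ^ 12 • t (t (t x))
      + ξ ^ 16 • t (t (t (t x)))) := by
  simp [Pr, Finset.sum_range_succ, pow_succ, Module.End.mul_apply, LinearMap.add_apply]

lemma t5_apply (h : HMod t s Y) (x : M) : t (t (t (t (t x)))) = x := by
  have := LinearMap.congr_fun h.t5 x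
  simpa [pow_succ, Module.End.mul_apply] using this

lemma t_Pr (h : HMod t s Y) {ξ : F} (hξ : ξ ^ 5 = 1) (x : M) :
    t (Pr t ξ x) = ξ • Pr t ξ x := by
  rw [Pr_apply]
  simp only [map_neg, map_add, map_smul, t5_apply h]
  match_scalars
  · linear_combination hξ
  · linear_combination ξ ^ 4 * hξ
  · linear_combination ξ ^ 8 * hξ
  · linear_combination ξ ^ 12 * hξ
  · linear_combination (- ξ ^ 11 - ξ ^ 6 - ξ) * hξ

lemma Pr_t (h : HMod t s Y) {ξ : F} (hξ : ξ ^ 5 = 1) (x : M) :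
    Pr t ξ (t x) = ξ • Pr t ξ x := by
  rw [Pr_apply, Pr_apply]
  simp only [t5_apply h]
  match_scalars
  · linear_combination hξ
  · linear_combination ξ ^ 4 * hξ
  · linear_combination ξ ^ 8 * hξ
  · linear_combination ξ ^ 12 * hξ
  · linear_combination (- ξ ^ 11 - ξ ^ 6 - ξ) * hξ

lemma three (F : Type) [Field F] [CharP F 3] : (3 : F) = 0 := by
  have := CharP.cast_eq_zero F 3
  simpa using this

lemma cyc {ξ : F} (hξ : ξ ^ 5 = 1) (hξ1 : ξ ≠ 1) : 1 + ξ + ξ ^ 2 + ξ ^ 3 + ξ ^ 4 = 0 := by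
  have h : (ξ - 1) * (1 + ξ + ξ ^ 2 + ξ ^ 3 + ξ ^ 4) = 0 := by linear_combination hξ
  exact (mul_eq_zero.1 h).resolve_left (sub_ne_zero.2 hξ1)

lemma Pr_pow (h : HMod t s Y) {ξ : F} (hξ : ξ ^ 5 = 1) (k : ℕ) (x : M) :
    Pr t ξ ((t ^ k) x) = ξ ^ k • Pr t ξ x := by
  induction k with
  | zero => simp
  | succ k ih => rw [pow_succ', Module.End.mul_apply, Pr_t h hξ, ih, smul_smul, pow_succ']

lemma t_pow {ξ : F} {m : M} (hm : t m = ξ • m) (k : ℕ) : (t ^ k) m = ξ ^ k • m := by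
  induction k with
  | zero => simp
  | succ k ih => rw [pow_succ', Module.End.mul_apply, ih, map_smul, hm, smul_smul, pow_succ]

lemma Pr_self {ξ : F} (hξ : ξ ^ 5 = 1) {m : M} (hm : t m = ξ • m) : Pr t ξ m = m := by
  rw [Pr_apply]
  simp only [hm, map_smul]
  match_scalars
  linear_combination (-2) * three F + (- 1 - (1 + ξ ^ 5) - (1 + ξ ^ 5 + ξ ^ 10)
    - (1 + ξ ^ 5 + ξ ^ 10 + ξ ^ 15)) * hξ

lemma t_s (h : HMod t s Y) (x : M) : t (s x) = s ((t ^ 4) x) := by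
  have e : t * s = s * t ^ 4 := by
    have h1 : s * t ^ 4 * s = t := by
      have h2 : s * t * s = t ^ 4 := by rw [h.st, mul_assoc, h.ss, mul_one]
      calc s * t ^ 4 * s = (s * t * s) * (s * t * s) * (s * t * s) * (s * t * s) := by
            simp only [pow_succ, pow_zero, one_mul, mul_assoc]
            simp only [← mul_assoc s s, h.ss, one_mul]
        _ = t ^ 5 * t ^ 5 * t ^ 5 * t := by rw [h2]; noncomm_ring
        _ = t := by rw [h.t5]; simp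
    calc t * s = (s * t ^ 4 * s) * s := by rw [h1]
      _ = s * t ^ 4 := by rw [mul_assoc, h.ss, mul_one]
  exact LinearMap.congr_fun e x

lemma Pr_s (h : HMod t s Y) {ξ : F} (hξ : ξ ^ 5 = 1) (hξ1 : ξ ≠ 1) {m : M} (hm : t m = ξ • m) :
    Pr t ξ (s m) = 0 := by
  have h1 : t (s m) = ξ ^ 4 • s m := by rw [t_s h, t_pow hm, map_smul]
  rw [Pr_apply]
  simp only [h1, map_smul]
  match_scalars
  linear_combination (-1) * cyc hξ hξ1 + (- ξ ^ 3 - ξ * (ξ ^ 10 + ξ ^ 5 + 1)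
    - ξ ^ 4 * (ξ ^ 15 + ξ ^ 10 + ξ ^ 5 + 1)
    - ξ ^ 2 * (ξ ^ 25 + ξ ^ 20 + ξ ^ 15 + ξ ^ 10 + ξ ^ 5 + 1)) * hξ

/-- the two products -/
lemma Pr_Y_Pr (h : HMod t s Y) {ξ : F} (hξ : ξ ^ 5 = 1) (i : Fin 3)
    (hi : Y i * s = Y i) (m : M) :
    Pr t ξ (Y i (Pr t ξ (Y 0 m))) = - (Pr t ξ (Y i (Y 0 m))
      + (ξ + ξ ^ 4) • Pr t ξ (Y i (t (Y 0 m)))
      + (ξ ^ 2 + ξ ^ 3) • Pr t ξ (Y i ((t ^ 2) (Y 0 m)))) := by
  have hs : s (Y 0 m) = Y 0 m := LinearMap.congr_fun h.sY0 m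
  have hi' : ∀ x, Y i (s x) = Y i x := fun x => LinearMap.congr_fun hi x
  have e4 : Y i ((t ^ 4) (Y 0 m)) = Y i (t (Y 0 m)) := by
    rw [← hi', ← t_s h, hs]
  have e3 : Y i ((t ^ 3) (Y 0 m)) = Y i ((t ^ 2) (Y 0 m)) := by
    have : (t ^ 2) (s (Y 0 m)) = s ((t ^ 3) (Y 0 m)) := by
      rw [pow_succ, pow_one, Module.End.mul_apply, t_s h, t_s h]
      congr 1
      rw [← Module.End.mul_apply, ← pow_add]
      have : t ^ (4 + 4) = t ^ 3 := by
        rw [show 4 + 4 = 5 + 3 from rfl, pow_add, h.t5, one_mul]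
      rw [this]
    rw [← hi', ← this, hs]
  rw [Pr_apply t ξ (Y 0 m)]
  have p2 : ∀ x, t (t x) = (t ^ 2) x := fun x => by simp [pow_succ, Module.End.mul_apply]
  have p3 : ∀ x, t (t (t x)) = (t ^ 3) x := fun x => by simp [pow_succ, Module.End.mul_apply]
  have p4 : ∀ x, t (t (t (t x))) = (t ^ 4) x := fun x => by simp [pow_succ, Module.End.mul_apply]
  rw [p4, p3, p2]
  simp only [map_neg, map_add, map_smul, e3, e4]
  match_scalars
  · ring
  · linear_combination (- ξ * (ξ ^ 10 + ξ ^ 5 + 1)) * hξ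
  · linear_combination (- ξ ^ 3 - ξ ^ 2 * (ξ ^ 5 + 1)) * hξ

lemma ofNat16 (x : M) : (16 : Module.End F M) x = x := by
  have : (16 : Module.End F M) x = (16 : F) • x := by
    rw [Module.End.ofNat_apply]
    exact (Nat.cast_smul_eq_nsmul F 16 x).symm
  rw [this]
  have h16 : (16 : F) = 1 := by linear_combination 5 * three F
  rw [h16, one_smul]

lemma ofNat4 (x : M) : (4 : Module.End F M) x = x := by
  have : (4 : Module.End F M) x = (4 : F) • x := by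
    rw [Module.End.ofNat_apply]
    exact (Nat.cast_smul_eq_nsmul F 4 x).symm
  rw [this]
  have h16 : (4 : F) = 1 := by linear_combination three F
  rw [h16, one_smul]

lemma ofNat32 (x : M) : (32 : Module.End F M) x = - x := by
  have : (32 : Module.End F M) x = (32 : F) • x := by
    rw [Module.End.ofNat_apply]
    exact (Nat.cast_smul_eq_nsmul F 32 x).symm
  rw [this]
  have h16 : (32 : F) = -1 := by linear_combination 11 * three F
  rw [h16, neg_smul, one_smul]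

/-- first product -/
lemma U0U0 (h : HMod t s Y) {ξ : F} (hξ : ξ ^ 5 = 1) (hξ1 : ξ ≠ 1) {m : M} (hm : t m = ξ • m) :
    Pr t ξ (Y 0 (Pr t ξ (Y 0 m))) = - m - Pr t ξ (Y 0 m)
      + (1 + (ξ + ξ ^ 4)) • Pr t ξ (Y 1 m) - (1 + (ξ + ξ ^ 4)) • Pr t ξ (Y 2 m) := by
  have r0 : Y 0 (Y 0 m) = m + s m - Y 1 m := by
    have := LinearMap.congr_fun h.r000 m
    simpa only [Module.End.mul_apply, LinearMap.add_apply, LinearMap.sub_apply, ofNat16, ofNat4]
      using this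
  have r1 := congrArg (Pr t ξ) (LinearMap.congr_fun h.r010 m)
  have r2 := congrArg (Pr t ξ) (LinearMap.congr_fun h.r020 m)
  have pt : ∀ x, Pr t ξ (t x) = ξ • Pr t ξ x := Pr_t h hξ
  simp only [Module.End.mul_apply, LinearMap.add_apply, LinearMap.sub_apply, LinearMap.neg_apply,
    map_add, map_sub, map_neg, t_pow hm, hm, map_smul, Pr_pow h hξ, pt] at r1 r2
  rw [Pr_Y_Pr h hξ 0 h.Y0s, r0, map_sub, map_add, Pr_self hξ hm, Pr_s h hξ hξ1 hm, r1, r2]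
  have c := cyc hξ hξ1
  have c3 := three F
  match_scalars
  · ring
  · linear_combination (-ξ + ξ ^ 2 - 2 * ξ ^ 4 + ξ ^ 5 - ξ ^ 7) * c
  · linear_combination (4 - 4 * ξ + ξ ^ 3 - ξ ^ 4 + 4 * ξ ^ 5 - ξ ^ 7 + ξ ^ 8) * c - c3
  · linear_combination (1 + 5 * ξ ^ 2 - 5 * ξ ^ 4 + ξ ^ 5 + ξ ^ 6) * c
      + (-2 * ξ ^ 2 - 2 * ξ ^ 3) * c3

/-- second product -/
lemma U1U0 (h : HMod t s Y) {ξ : F} (hξ : ξ ^ 5 = 1) (hξ1 : ξ ≠ 1) {m : M} (hm : t m = ξ • m) :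
    Pr t ξ (Y 1 (Pr t ξ (Y 0 m))) = (1 + (ξ + ξ ^ 4)) • Pr t ξ (Y 0 m)
      - (ξ + ξ ^ 4) • Pr t ξ (Y 1 m) := by
  have r0 : Y 1 (Y 0 m) = - Y 0 m - Y 1 m := by
    have := LinearMap.congr_fun h.r100 m
    simpa only [Module.End.mul_apply, LinearMap.add_apply, LinearMap.sub_apply,
      LinearMap.neg_apply, ofNat4] using this
  have r1 := congrArg (Pr t ξ) (LinearMap.congr_fun h.r110 m)
  have r2 := congrArg (Pr t ξ) (LinearMap.congr_fun h.r120 m)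
  have pt : ∀ x, Pr t ξ (t x) = ξ • Pr t ξ x := Pr_t h hξ
  simp only [Module.End.mul_apply, LinearMap.add_apply, LinearMap.sub_apply, LinearMap.neg_apply,
    map_add, map_sub, map_neg, t_pow hm, hm, map_smul, Pr_pow h hξ, pt] at r1 r2
  rw [Pr_Y_Pr h hξ 1 h.Y1s, r0, map_sub, map_neg, r1, r2]
  have c := cyc hξ hξ1
  have c3 := three F
  match_scalars
  · linear_combination (-ξ + ξ ^ 2 - 2 * ξ ^ 4 + ξ ^ 5 - ξ ^ 7) * c
  · linear_combination (1 - ξ ^ 2 + ξ ^ 4 - ξ ^ 5 - ξ ^ 6) * c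
  · linear_combination (- ξ ^ 3 + ξ ^ 4 + ξ ^ 7 - ξ ^ 8) * c

/-- the sum -/
lemma Usum (h : HMod t s Y) (hZ : Zop t Y = 0) {ξ : F} (hξ : ξ ^ 5 = 1) (hξ1 : ξ ≠ 1) {m : M}
    (hm : t m = ξ • m) : Pr t ξ (Y 0 m) + Pr t ξ (Y 1 m) + Pr t ξ (Y 2 m) = m := by
  have r0 : Y 0 (Y 0 m) = m + s m - Y 1 m := by
    have := LinearMap.congr_fun h.r000 m
    simpa only [Module.End.mul_apply, LinearMap.add_apply, LinearMap.sub_apply, ofNat16, ofNat4]
      using this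
  have r1 : Y 1 (Y 1 m) = m + s m - Y 0 m := by
    have := LinearMap.congr_fun h.r101 m
    simpa only [Module.End.mul_apply, LinearMap.add_apply, LinearMap.sub_apply, ofNat16, ofNat4]
      using this
  have r2 : Y 2 (Y 2 m) = m - s m - Y 2 m := by
    have := LinearMap.congr_fun h.r202 m
    simpa only [Module.End.mul_apply, LinearMap.add_apply, LinearMap.sub_apply, ofNat16, ofNat4]
      using this
  have hz := LinearMap.congr_fun hZ m
  have key : Pr t ξ (Y 0 (Y 0 m) + Y 1 (Y 1 m) + Y 2 (Y 2 m)) = - m := by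
    have e : Zop t Y m = - m - Pr t ξ (Y 0 (Y 0 m) + Y 1 (Y 1 m) + Y 2 (Y 2 m)) := by
      simp only [Zop, Pr, LinearMap.add_apply, ofNat32, LinearMap.sum_apply, Module.End.mul_apply,
        t_pow hm, map_smul, LinearMap.neg_apply, LinearMap.smul_apply, sub_neg_eq_add]
    rw [e, LinearMap.zero_apply] at hz
    rw [sub_eq_zero] at hz
    exact hz.symm
  rw [r0, r1, r2] at key
  simp only [map_add, map_sub, Pr_self hξ hm, Pr_s h hξ hξ1 hm] at key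
  have c3 := three F
  linear_combination (norm := module) (-1 : F) • key + c3 • m

/-- `(U0 - g)^3 = 0` on the eigenspace -/
lemma cube (h : HMod t s Y) (hZ : Zop t Y = 0) {ξ : F} (hξ : ξ ^ 5 = 1) (hξ1 : ξ ≠ 1)
    {X : M → M} (hX : ∀ x, X x = Pr t ξ (Y 0 x) - (ξ + ξ ^ 4) • x) {m : M}
    (hm : t m = ξ • m) : X (X (X m)) = 0 := by
  have mem : ∀ x, t x = ξ • x → t (X x) = ξ • X x := fun x hx => by
    rw [hX, map_sub, t_Pr h hξ, map_smul, hx]
    module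
  have sq : ∀ x, t x = ξ • x → X (X x) = (2 - 2 * (ξ + ξ ^ 4)) • x
      - (ξ + ξ ^ 4) • Pr t ξ (Y 0 x) - (1 + (ξ + ξ ^ 4)) • Pr t ξ (Y 1 x) := fun x hx => by
    have e1 := U0U0 h hξ hξ1 hx
    have e2 := Usum h hZ hξ hξ1 hx
    have c := cyc hξ hξ1
    have c3 := three F
    rw [hX (X x), hX x]
    simp only [map_sub, map_smul, e1]
    have e3 : Pr t ξ (Y 2 x) = x - Pr t ξ (Y 0 x) - Pr t ξ (Y 1 x) := by
      linear_combination (norm := module) (1 : F) • e2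
    rw [e3]
    match_scalars
    · linear_combination (-1 + 2 * ξ - ξ ^ 3 + ξ ^ 4) * c - c3
    · ring
    · linear_combination 3 * c + (- ξ ^ 2 - ξ ^ 3) * c3
  have e1 := U0U0 h hξ hξ1 hm
  have e2 := Usum h hZ hξ hξ1 hm
  have e4 := U1U0 h hξ hξ1 hm
  have c := cyc hξ hξ1
  have c3 := three F
  have e3 : Pr t ξ (Y 2 m) = m - Pr t ξ (Y 0 m) - Pr t ξ (Y 1 m) := by
    linear_combination (norm := module) (1 : F) • e2
  rw [sq _ (mem m hm), hX m]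
  simp only [map_sub, map_smul, e1, e4]
  rw [e3]
  match_scalars
  · linear_combination (-2 - 2 * ξ + ξ ^ 3 - ξ ^ 4) * c + (1 + ξ ^ 2 + ξ ^ 3) * c3
  · linear_combination (-6 + 6 * ξ - 3 * ξ ^ 3 + 3 * ξ ^ 4) * c + (2 + ξ ^ 2 + ξ ^ 3) * c3
  · ring

/-- TL-A5 -/
theorem fside_exists (h : HMod t s Y) (hZ : Zop t Y = 0) (ξ : F) (hξ : ξ ^ 5 = 1) (hξ1 : ξ ≠ 1)
    (v : M) (hv : v ≠ 0) (htv : t v = ξ • v) :
    ∃ w : M, w ≠ 0 ∧ t w = ξ • w ∧ Pr t ξ (Y 0 w) = (ξ + ξ ^ 4) • w ∧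
      Pr t ξ (Y 1 w) = (- (1 + (ξ + ξ ^ 4))) • w ∧ Pr t ξ (Y 2 w) = - w := by
  obtain ⟨X, hX⟩ : ∃ X : M → M, ∀ x, X x = Pr t ξ (Y 0 x) - (ξ + ξ ^ 4) • x := ⟨_, fun x => rfl⟩
  have mem : ∀ x, t x = ξ • x → t (X x) = ξ • X x := fun x hx => by
    rw [hX, map_sub, t_Pr h hξ, map_smul, hx]
    module
  obtain ⟨w, hw, hwt, hwX⟩ : ∃ w : M, w ≠ 0 ∧ t w = ξ • w ∧ X w = 0 := by
    by_cases h1 : X v = 0
    · exact ⟨v, hv, htv, h1⟩
    by_cases h2 : X (X v) = 0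
    · exact ⟨X v, h1, mem _ htv, h2⟩
    · exact ⟨X (X v), h2, mem _ (mem _ htv), cube h hZ hξ hξ1 hX htv⟩
  have hu0 : Pr t ξ (Y 0 w) = (ξ + ξ ^ 4) • w := by
    rw [hX, sub_eq_zero] at hwX
    exact hwX
  have e1 := U0U0 h hξ hξ1 hwt
  have e2 := Usum h hZ hξ hξ1 hwt
  have c := cyc hξ hξ1
  have c3 := three F
  have e3 : Pr t ξ (Y 2 w) = w - Pr t ξ (Y 0 w) - Pr t ξ (Y 1 w) := by
    linear_combination (norm := module) (1 : F) • e2
  have hu1 : Pr t ξ (Y 1 w) = (- (1 + (ξ + ξ ^ 4))) • w := by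
    rw [e3, hu0, map_smul, map_smul, hu0] at e1
    have q : (ξ + ξ ^ 4) * (ξ + ξ ^ 4) + (ξ + ξ ^ 4) - 1 = 0 := by
      linear_combination (-1 + 2 * ξ - ξ ^ 3 + ξ ^ 4) * c
    linear_combination (norm := module) (ξ + ξ ^ 4) • e1 - q • w + ((2 : F) * q) • Pr t ξ (Y 1 w)
      + c3 • Pr t ξ (Y 1 w)
  refine ⟨w, hw, hwt, hu0, hu1, ?_⟩
  rw [e3, hu0, hu1]
  linear_combination (norm := module) c3 • w

end Pool.Agent.Helper79.TL.A5
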